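import Mathlib
import Pool.Agent.Lib.MP_8629a4_co.Key

set_option autoImplicit false

open Finset
open scoped LinearAlgebra.Projectivization

namespace Pool.Agent.Results.MP_8629a4_co.FullAnswer

/-- The list L of t vectors is served by the k by n matrix M: there are pairwise disjoint sets of
column indices such that the i-th vector lies in the span of the columns of the i-th set. -/
def Serves {F : Type*} [Field F] {k n t : ℕ} (M : Matrix (Fin k) (Fin n) F)
    (L : Fin t → Fin k → F) : Prop :=
  ∃ X : Fin t → Finset (Fin n), (∀ i j, i ≠ j → Disjoint (X i) (X j)) ∧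
    ∀ i, L i ∈ Submodule.span F (M.col '' (X i : Set (Fin n)))

/-- The linear code C of length n is a t-functional batch code of dimension k: it has dimension k
and some k by n generator matrix of it serves every list of t nonzero vectors. -/
def IsFunctionalBatchCode {F : Type*} [Field F] {n : ℕ} (k t : ℕ)
    (C : Submodule F (Fin n → F)) : Prop :=
  Module.finrank F C = k ∧ ∃ M : Matrix (Fin k) (Fin n) F,
    Submodule.span F (Set.range M.row) = C ∧
    ∀ L : Fin t → Fin k → F, (∀ i, L i ≠ 0) → Serves M L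

open Pool.Agent.Lib.MP_8629a4_co

lemma lower {F : Type*} [Field F] [Fintype F] {k n θ : ℕ} (hθ : Nat.card (ℙ F (Fin k → F)) = θ)
    (M : Matrix (Fin k) (Fin n) F)
    (hM : ∀ L : Fin (θ + 1) → Fin k → F, (∀ i, L i ≠ 0) → Serves M L) : 2 * θ ≤ n := by
  classical
  have : Fintype (ℙ F (Fin k → F)) := Fintype.ofFinite _
  by_contra hcon
  let mult : ℙ F (Fin k → F) → ℕ := fun P => #(univ.filter fun c => cls (M.col c) = some P)
  have hsum : ∑ P, mult P ≤ n := by
    have h1 := Finset.card_eq_sum_card_fiberwise (s := (univ : Finset (Fin n)))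
      (t := (univ : Finset (Option (ℙ F (Fin k → F))))) (f := fun c => cls (M.col c))
      (fun _ _ => Finset.mem_coe.mpr (Finset.mem_univ _))
    rw [Fintype.sum_option, Finset.card_univ, Fintype.card_fin] at h1
    simp only [mult]
    omega
  obtain ⟨P, hP⟩ : ∃ P, mult P ≤ 1 := by
    by_contra hh
    push Not at hh
    have h2 : ∑ _P : ℙ F (Fin k → F), 2 ≤ ∑ P, mult P := Finset.sum_le_sum fun P _ => hh P
    rw [Finset.sum_const, Finset.card_univ, ← Nat.card_eq_fintype_card, hθ, smul_eq_mul] at h2
    omega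
  obtain ⟨X, hX, hspan⟩ := hM (fun _ => P.rep) (fun _ => P.rep_nonzero)
  have hne : ∀ i, (X i).Nonempty := by
    intro i
    rw [Finset.nonempty_iff_ne_empty]
    intro h
    have := hspan i
    rw [h] at this
    simp [P.rep_nonzero] at this
  have hone : ∀ i, #(X i) = 1 → ∃ c ∈ X i, cls (M.col c) = some P := by
    intro i hi
    obtain ⟨c, hc⟩ := Finset.card_eq_one.mp hi
    refine ⟨c, by simp [hc], ?_⟩
    have := hspan i
    rw [hc, Finset.coe_singleton, Set.image_singleton, Submodule.mem_span_singleton] at this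
    obtain ⟨a, ha⟩ := this
    have hc0 : M.col c ≠ 0 := by
      intro h0
      rw [h0, smul_zero] at ha
      exact P.rep_nonzero ha.symm
    rw [cls, dif_neg hc0, Option.some_inj, ← P.mk_rep, eq_comm, Projectivization.mk_eq_mk_iff']
    exact ⟨a, ha⟩
  have huniq : #(univ.filter fun i => #(X i) = 1) ≤ 1 := by
    rw [Finset.card_le_one]
    intro i hi j hj
    obtain ⟨c, hc, hc'⟩ := hone i (Finset.mem_filter.mp hi).2
    obtain ⟨d, hd, hd'⟩ := hone j (Finset.mem_filter.mp hj).2
    have hcd : c = d := Finset.card_le_one.mp hP c (by simp [hc']) d (by simp [hd'])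
    by_contra hij
    exact Finset.disjoint_left.mp (hX i j hij) hc (hcd ▸ hd)
  have htot : ∑ i, #(X i) ≤ n := by
    rw [← Finset.card_biUnion (fun i _ j _ hij => hX i j hij)]
    simpa using Finset.card_le_univ (univ.biUnion X)
  have hlow : ∑ _i : Fin (θ + 1), 2 ≤ ∑ i, (#(X i) + if #(X i) = 1 then 1 else 0) := by
    refine Finset.sum_le_sum fun i _ => ?_
    have := (hne i).card_pos
    split_ifs <;> omega
  rw [Finset.sum_add_distrib, Finset.sum_boole, Finset.sum_const, Finset.card_univ,
    Fintype.card_fin, smul_eq_mul, Nat.cast_id] at hlow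
  omega

lemma upper {F : Type*} [Field F] [Fintype F] {k θ : ℕ} (hθ : Nat.card (ℙ F (Fin k → F)) = θ) :
    ∃ M : Matrix (Fin k) (Fin (2 * θ)) F, ∀ L : Fin (θ + 1) → Fin k → F, Serves M L := by
  classical
  have : Fintype (ℙ F (Fin k → F)) := Fintype.ofFinite _
  rw [Nat.card_eq_fintype_card] at hθ
  let e : Fin (2 * θ) ≃ Bool × ℙ F (Fin k → F) := Fintype.equivOfCardEq (by simp [hθ])
  let f : Fin (θ + 1) ≃ Option (ℙ F (Fin k → F)) := Fintype.equivOfCardEq (by simp [hθ])
  refine ⟨Matrix.of fun r c => (e c).2.rep r, fun L => ?_⟩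
  obtain ⟨x, y, hx, hy, hxy⟩ := key (fun j => L (f.symm j))
  let X : Fin (θ + 1) → Finset (Fin (2 * θ)) := fun i => univ.filter fun c =>
    ((e c).1 = false ∧ cls (x (f i)) = some (e c).2) ∨
      ((e c).1 = true ∧ cls (y (f i)) = some (e c).2)
  refine ⟨X, fun i j hij => ?_, fun i => ?_⟩
  · rw [Finset.disjoint_left]
    intro c hi hj
    simp only [X, Finset.mem_filter, Finset.mem_univ, true_and] at hi hj
    rcases hi with ⟨h1, h2⟩ | ⟨h1, h2⟩ <;> rcases hj with ⟨h3, h4⟩ | ⟨h3, h4⟩
    · exact hij (f.injective (hx (h2.trans h4.symm)))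
    · simp [h1] at h3
    · simp [h1] at h3
    · exact hij (f.injective (hy (h2.trans h4.symm)))
  · have hmem : ∀ (b : Bool) (z : Fin k → F),
        (∀ c, (e c).1 = b → cls z = some (e c).2 → c ∈ X i) →
        z ∈ Submodule.span F
          ((Matrix.of fun r c => (e c).2.rep r : Matrix (Fin k) (Fin (2 * θ)) F).col ''
            (X i : Set (Fin (2 * θ)))) := by
      intro b z hz
      by_cases h0 : z = 0
      · rw [h0]; exact Submodule.zero_mem _
      · obtain ⟨a, ha⟩ := Projectivization.exists_smul_eq_mk_rep F z h0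
        have h1 : (Projectivization.mk F z h0).rep ∈ Submodule.span F
            ((Matrix.of fun r c => (e c).2.rep r : Matrix (Fin k) (Fin (2 * θ)) F).col ''
              (X i : Set (Fin (2 * θ)))) := by
          refine Submodule.subset_span ⟨e.symm (b, Projectivization.mk F z h0), ?_, ?_⟩
          · exact hz _ (by simp) (by simp [cls, h0])
          · funext r
            simp [Matrix.col]
        have h2 := Submodule.smul_mem _ ((a⁻¹ : Fˣ) : F) h1
        rw [← ha] at h2
        simpa [Units.smul_def, smul_smul] using h2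
    obtain ⟨a, b, hab⟩ := hxy (f i)
    simp only [Equiv.symm_apply_apply] at hab
    rw [hab]
    refine Submodule.add_mem _ (Submodule.smul_mem _ _ (hmem false _ fun c h1 h2 => ?_))
      (Submodule.smul_mem _ _ (hmem true _ fun c h1 h2 => ?_))
    · exact Finset.mem_filter.mpr ⟨Finset.mem_univ _, Or.inl ⟨h1, h2⟩⟩
    · exact Finset.mem_filter.mpr ⟨Finset.mem_univ _, Or.inr ⟨h1, h2⟩⟩

/-- For every finite field with q elements and every k at least one, the least length of a
(θ+1)-functional batch code of dimension k is 2θ, where θ = (q^k - 1)/(q - 1). -/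
theorem result (F : Type*) [Field F] [Fintype F] (q k : ℕ) (hq : Fintype.card F = q)
    (hk : 1 ≤ k) :
    IsLeast {n : ℕ | 1 ≤ n ∧ ∃ C : Submodule F (Fin n → F),
        IsFunctionalBatchCode k ((q ^ k - 1) / (q - 1) + 1) C}
      (2 * ((q ^ k - 1) / (q - 1))) := by
  classical
  have hθ : Nat.card (ℙ F (Fin k → F)) = (q ^ k - 1) / (q - 1) := by
    rw [Projectivization.card'' F (Fin k → F)]
    simp [Nat.card_eq_fintype_card, hq]
  set θ := (q ^ k - 1) / (q - 1)
  have hpos : 0 < θ := by
    have : Nonempty (Fin k) := ⟨⟨0, hk⟩⟩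
    have : Finite (ℙ F (Fin k → F)) := inferInstance
    rw [← hθ]
    exact Nat.card_pos
  constructor
  · obtain ⟨M, hM⟩ := upper hθ
    refine ⟨by omega, Submodule.span F (Set.range M.row), ?_, M, rfl, fun L _ => hM L⟩
    rw [← Matrix.rank_eq_finrank_span_row, Matrix.rank_eq_finrank_span_cols]
    have : Submodule.span F (Set.range M.col) = ⊤ := by
      rw [eq_top_iff]
      intro v _
      obtain ⟨X, -, hX⟩ := hM (fun _ => v)
      exact Submodule.span_mono (Set.image_subset_range _ _) (hX 0)
    rw [this]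
    simp
  · rintro n ⟨-, C, -, M, -, hM⟩
    exact lower hθ M hM

end Pool.Agent.Results.MP_8629a4_co.FullAnswer
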